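import Pool.Agent.Y403.LW.Cons

/-!
Low c.e. sets have approximations with true stages for all computable families of processes.
-/

set_option autoImplicit false

namespace Pool.Agent.Y403.LW

open Nat.Partrec (Code)
open Nat.Partrec.Code (evaln eval)
open Pool.Agent.H938R3.TC
open Pool.Agent.H109R3.LA (cvg acc ev_cvg acc_iff primrec_evn)

section main

variable {cA cU c : ℕ} {A : ℕ → Bool} {U : ℕ → List (List Bool) → Bool} {G : ℕ → ℕ → Bool}

open Classical in
/-- the stage at which the approximation number `k` is chosen -/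
noncomputable def st (hub : ∀ k, ∃ s, (TT cA cU G s).length = k) (k : ℕ) : ℕ :=
  Nat.find (hub (k + 1))

variable (hub : ∀ k, ∃ s, (TT cA cU G s).length = k)

theorem st_spec (k : ℕ) : (TT cA cU G (st hub k)).length = k + 1 := by
  classical
  exact Nat.find_spec (hub (k + 1))

theorem st_min {k s : ℕ} (h : s < st hub k) : (TT cA cU G s).length ≠ k + 1 := by
  classical
  exact Nat.find_min (hub (k + 1)) h

/-- the approximation -/
noncomputable def al (k : ℕ) : List Bool := (TT cA cU G (st hub k)).headI

theorem TT_new (k : ℕ) : ∃ s, st hub k = s + 1 ∧ (TT cA cU G s).length = k ∧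
    TT cA cU G (s + 1) = rs cA s k :: TT cA cU G s ∧ okT cA cU G s (TT cA cU G s) = true := by
  have h1 := st_spec hub k
  obtain ⟨s, hs⟩ : ∃ s, st hub k = s + 1 := by
    apply Nat.exists_eq_succ_of_ne_zero
    intro h0
    rw [h0] at h1
    have := TT_len_le (cA := cA) (cU := cU) (G := G) 0
    omega
  have h2 := st_min hub (show s < st hub k by omega)
  rw [hs] at h1
  rcases TT_succ (cA := cA) (cU := cU) (G := G) s with h | ⟨h, h'⟩
  · rw [h] at h1
    exact absurd h1 h2
  · have h3 : (TT cA cU G s).length = k := by
      rw [h, List.length_cons] at h1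
      omega
    rw [h3] at h
    exact ⟨s, hs, h3, h, h'⟩

theorem al_eq {k s : ℕ} (hs : st hub k = s + 1)
    (h : TT cA cU G (s + 1) = rs cA s k :: TT cA cU G s) : al hub k = rs cA s k := by
  unfold al
  rw [hs, h]
  rfl

theorem st_mono {j k : ℕ} (h : j ≤ k) : st hub j ≤ st hub k := by
  by_contra hcon
  push Not at hcon
  have h1 := (TT_suffix (cA := cA) (cU := cU) (G := G) hcon.le).length_le
  rw [st_spec, st_spec] at h1
  have h2 : j = k := by omega
  subst h2
  omega

theorem st_gt (k : ℕ) : k < st hub k := by
  have := TT_len_le (cA := cA) (cU := cU) (G := G) (st hub k)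
  rw [st_spec] at this
  omega

theorem hst_eq (k : ℕ) : hst (al hub) (k + 1) = TT cA cU G (st hub k) := by
  induction k with
  | zero =>
    obtain ⟨s, hs, h0, h, -⟩ := TT_new hub 0
    show [al hub 0] = _
    rw [al_eq hub hs h, hs, h, List.length_eq_zero_iff.1 h0]
  | succ k ih =>
    obtain ⟨s, hs, h0, h, -⟩ := TT_new hub (k + 1)
    have h1 : TT cA cU G s = TT cA cU G (st hub k) := TT_eq_of_length (by rw [h0, st_spec])
    show al hub (k + 1) :: hst (al hub) (k + 1) = _
    rw [ih, al_eq hub hs h, hs, h, h1]

theorem comp_TT (hG : ∀ e s, (Denumerable.ofNat Code c).eval (Nat.pair e s) =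
    Part.some (Encodable.encode (G e s))) : Computable (TT cA cU G) := by
  have h1 : Computable₂ fun s t : ℕ => run cA cU t c s :=
    (primrec_run (α := ℕ × ℕ) Primrec.snd (Primrec.const c) Primrec.fst).to_comp
  have h2 : Partrec fun s : ℕ => Nat.rfindOpt fun t => run cA cU t c s := Partrec.rfindOpt h1
  refine Partrec.of_eq h2 fun s => ?_
  have hd : (Nat.rfindOpt fun t => run cA cU t c s).Dom := by
    rw [Nat.rfindOpt_dom]
    obtain ⟨t₀, ht⟩ := run_complete (cA := cA) (cU := cU) hG s
    exact ⟨t₀, _, ht t₀ le_rfl⟩
  obtain ⟨L, hL⟩ := Part.dom_iff_mem.1 hd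
  obtain ⟨t, ht⟩ := Nat.rfindOpt_spec hL
  have h3 := run_sound hG s L ht
  subst h3
  exact Part.eq_some_iff.2 hL

theorem comp_al (hG : ∀ e s, (Denumerable.ofNat Code c).eval (Nat.pair e s) =
    Part.some (Encodable.encode (G e s))) : Computable (al hub) := by
  have hT := comp_TT (cA := cA) (cU := cU) hG
  have h1 : Computable₂ fun k s : ℕ => decide ((TT cA cU G s).length = k + 1) := by
    have h2 : Primrec₂ fun a b : ℕ => decide (a = b) := Primrec.eq.decide
    exact h2.to_comp.comp (Computable.list_length.comp (hT.comp Computable.snd))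
      (Computable.succ.comp Computable.fst)
  have h2 : Partrec fun k : ℕ => Nat.rfind fun s =>
      (Part.some (decide ((TT cA cU G s).length = k + 1)) : Part Bool) := Partrec.rfind h1.partrec₂
  have h3 : Computable (st hub) := by
    refine Partrec.of_eq h2 fun k => Part.eq_some_iff.2 (Nat.mem_rfind.2 ⟨?_, fun {m} hm => ?_⟩)
    · rw [Part.mem_some_iff, st_spec]
      simp
    · rw [Part.mem_some_iff]
      have := st_min hub hm
      simpa using this
  exact (Primrec.list_headI.to_comp.comp (hT.comp h3))

theorem res_length (s k : ℕ) : (rs cA s k).length = k := by simp [rs]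

theorem res_getD {s k n : ℕ} : (rs cA s k).getD n false = (decide (n < k) && hA cA s n) := by
  unfold rs
  by_cases h : n < k
  · simp [h]
  · simp [h]

theorem apx_al (hcA : ∀ n, A n = true ↔ ∃ s, hA cA s n = true)
    (hcU : ∀ e L, (Denumerable.ofNat Code cU).eval (Encodable.encode (e, L)) =
      Part.some (Encodable.encode (U e L)))
    (hG : ∀ e s, (Denumerable.ofNat Code c).eval (Nat.pair e s) =
      Part.some (Encodable.encode (G e s)))
    (hlim : ∀ e, ∃ s₀, ∀ s ≥ s₀, (G e s = true ↔ Q A cA cU G e)) : Apx A U (al hub) where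
  comp := comp_al hub hG
  len k := by
    obtain ⟨s, hs, -, h, -⟩ := TT_new hub k
    rw [al_eq hub hs h, res_length]
  mono j k n hjk h := by
    obtain ⟨s, hs, -, h1, -⟩ := TT_new hub j
    obtain ⟨s', hs', -, h1', -⟩ := TT_new hub k
    rw [al_eq hub hs h1, res_getD, Bool.and_eq_true, decide_eq_true_iff] at h
    rw [al_eq hub hs' h1', res_getD, Bool.and_eq_true, decide_eq_true_iff]
    have h2 := st_mono hub hjk
    exact ⟨by omega, hA_mono (by omega) h.2⟩
  lim n := by
    cases hn : A n with
    | true =>
      obtain ⟨s, hs⟩ := (hcA n).1 hn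
      refine ⟨max s (n + 1), fun k hk => ?_⟩
      obtain ⟨s', hs', -, h1', -⟩ := TT_new hub k
      rw [al_eq hub hs' h1', res_getD, Bool.and_eq_true, decide_eq_true_iff]
      have h1 := st_gt hub k
      exact ⟨by omega, hA_mono (by omega) hs⟩
    | false =>
      refine ⟨0, fun k _ => ?_⟩
      cases hm : (al hub k).getD n false with
      | false => rfl
      | true =>
        obtain ⟨s', hs', -, h1', -⟩ := TT_new hub k
        rw [al_eq hub hs' h1', res_getD, Bool.and_eq_true, decide_eq_true_iff] at hm
        have : A n = true := (hcA n).2 ⟨_, hm.2⟩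
        rw [hn] at this
        simp at this
  low e h := by
    -- the guess says yes infinitely often
    have hQ : Q A cA cU G e := by
      obtain ⟨s₀, hs₀⟩ := hlim e
      obtain ⟨k, hk, hU⟩ := h (max e s₀)
      obtain ⟨s, hs, h0, hT, hok⟩ := TT_new hub k
      have h1 : hst (al hub) (k + 1) = rs cA s k :: TT cA cU G s := by
        rw [hst_eq, hs, hT]
      rw [h1] at hU
      have hks : k ≤ s := by
        have := TT_len_le (cA := cA) (cU := cU) (G := G) s
        omega
      unfold okT at hok
      rw [List.all_eq_true, h0] at hok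
      have he : e ≤ k := le_trans (le_max_left _ _) hk
      have h2 := hok e (List.mem_range.2 (by omega))
      rw [Bool.and_eq_true, Bool.or_eq_true] at h2
      obtain ⟨h3, h4⟩ := h2
      have h5 : acc s cU e (rs cA s k :: TT cA cU G s) = true := (acc_iff hcU h3).2 hU
      rw [h5] at h4
      rcases h4 with h4 | h4
      · simp at h4
      · exact (hs₀ s (le_trans (le_trans (le_max_right _ _) hk) hks)).1 h4
    obtain ⟨s, he, hacc, htrue⟩ := hQ
    set k := (TT cA cU G s).length with hk
    obtain ⟨s', hs', h0', hT', -⟩ := TT_new hub k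
    have hTT : TT cA cU G s' = TT cA cU G s := TT_eq_of_length (by rw [h0', hk])
    have hss' : s ≤ s' := by
      by_contra hlt
      push Not at hlt
      have h1 := (TT_suffix (cA := cA) (cU := cU) (G := G) (show s' + 1 ≤ s by omega)).length_le
      rw [hT', List.length_cons, h0', ← hk] at h1
      omega
    -- the approximation is the same
    have hA' : ∀ n < k, hA cA s' n = A n := by
      intro n hn
      cases hm : A n with
      | true =>
        have h1 := htrue n hn
        rw [hm] at h1
        exact hA_mono hss' h1.symm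
      | false =>
        cases hm' : hA cA s' n with
        | false => rfl
        | true =>
          have : A n = true := (hcA n).2 ⟨_, hm'⟩
          rw [hm] at this
          simp at this
    have hrs : rs cA s' k = rs cA s k := by
      unfold rs
      apply List.map_congr_left
      intro n hn
      rw [hA' n (List.mem_range.1 hn), htrue n (List.mem_range.1 hn)]
    have h1 : hst (al hub) (k + 1) = rs cA s k :: TT cA cU G s := by
      rw [hst_eq, hs', hT', hTT, hrs]
    refine ⟨k, ?_, fun n hn => ?_⟩
    · rw [h1]
      have hcv : cvg s cU e (rs cA s k :: TT cA cU G s) = true := by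
        unfold acc at hacc
        rw [decide_eq_true_iff] at hacc
        unfold cvg
        rw [hacc]
        rfl
      exact (acc_iff hcU hcv).1 hacc
    · rw [al_eq hub hs' hT', res_getD, hA' n hn]
      simp [hn]

end main

/-- c.e. sets have computable enumerations -/
theorem exists_enum {A : ℕ → Bool} (h : REPred fun n => A n = true) :
    ∃ cA : ℕ, ∀ n, A n = true ↔ ∃ s, hA cA s n = true := by
  have h1 : Partrec fun n : ℕ => Part.assert (A n = true) fun _ => Part.some () := h
  obtain ⟨cd, hcd⟩ := Code.exists_code.1 h1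
  refine ⟨Encodable.encode cd, fun n => ?_⟩
  unfold hA
  rw [Denumerable.ofNat_encode]
  have h2 : (cd.eval n).Dom ↔ A n = true := by
    rw [hcd]
    simp only [Encodable.decode_nat, Part.coe_some, Part.bind_some, Part.map_Dom]
    exact ⟨fun ⟨h, _⟩ => h, fun h => ⟨h, trivial⟩⟩
  rw [← h2, Part.dom_iff_mem]
  constructor
  · rintro ⟨v, hv⟩
    obtain ⟨k, hk⟩ := Nat.Partrec.Code.evaln_complete.1 hv
    exact ⟨k, Option.isSome_iff_exists.2 ⟨v, hk⟩⟩
  · rintro ⟨k, hk⟩
    obtain ⟨v, hv⟩ := Option.isSome_iff_exists.1 hk
    exact ⟨v, Nat.Partrec.Code.evaln_sound hv⟩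

/-- **Robinson's trick**: a noncomputable low c.e. set has approximations with true stages for all
computable families of processes. -/
theorem lowCE_of_isLow {A : ℕ → Bool} (hre : REPred fun n => A n = true) (hnc : ¬ Computable A)
    (hlow : IsLow A) : LowCE A := by
  refine ⟨hre, hnc, fun U hU => ?_⟩
  obtain ⟨cA, hcA⟩ := exists_enum hre
  have h1 : Computable fun q : ℕ × List (List Bool) => U q.1 q.2 := hU
  obtain ⟨cd, hcd⟩ := Code.exists_code.1 h1.partrec
  have hcU : ∀ e L, (Denumerable.ofNat Code (Encodable.encode cd)).eval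
      (Encodable.encode (e, L)) = Part.some (Encodable.encode (U e L)) := by
    intro e L
    rw [Denumerable.ofNat_encode, hcd]
    simp
  set cU := Encodable.encode cd with hcUdef
  obtain ⟨g, hg, hglim⟩ := hlow (RU cA cU) primrec_RU.to_comp
  -- the recursion theorem
  have hf : Partrec₂ fun (c : Code) (n : ℕ) =>
      (Part.some (Encodable.encode (g (Nat.pair (Encodable.encode c) n.unpair.1) n.unpair.2)) :
        Part ℕ) := by
    have h2 : Computable fun q : Code × ℕ =>
        Encodable.encode (g (Nat.pair (Encodable.encode q.1) q.2.unpair.1) q.2.unpair.2) := by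
      refine Computable.encode.comp (hg.comp ?_ ?_)
      · exact (Primrec₂.natPair.comp (Primrec.encode.comp Primrec.fst)
          (Primrec.fst.comp (Primrec.unpair.comp Primrec.snd))).to_comp
      · exact (Primrec.snd.comp (Primrec.unpair.comp Primrec.snd)).to_comp
    exact h2.partrec
  obtain ⟨c, hc⟩ := Nat.Partrec.Code.fixed_point₂ hf
  set G : ℕ → ℕ → Bool := fun e s => g (Nat.pair (Encodable.encode c) e) s with hGdef
  have hG : ∀ e s, (Denumerable.ofNat Code (Encodable.encode c)).eval (Nat.pair e s) =
      Part.some (Encodable.encode (G e s)) := by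
    intro e s
    rw [Denumerable.ofNat_encode, hc]
    simp [hGdef]
  have hlim : ∀ e, ∃ s₀, ∀ s ≥ s₀, (G e s = true ↔ Q A cA cU G e) := by
    intro e
    obtain ⟨s₀, h⟩ := hglim (Nat.pair (Encodable.encode c) e)
    refine ⟨s₀, fun s hs => ?_⟩
    rw [← RU_iff (A := A) (cA := cA) (cU := cU) hG e]
    exact h s hs
  have hub := TT_unbounded hcA hcU hlim
  exact ⟨al hub, apx_al hub hcA hcU hG hlim⟩

end Pool.Agent.Y403.LW
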