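import Pool.Agent.Y403.LW.Run

/-!
Robinson's trick for low c.e. sets: the verification.
-/

set_option autoImplicit false

namespace Pool.Agent.Y403.LW

open Nat.Partrec (Code)
open Nat.Partrec.Code (evaln eval)
open Pool.Agent.H938R3.TC
open Pool.Agent.H109R3.LA (cvg acc ev_cvg acc_iff primrec_evn)

/-- the approximation of stage `s` is accepted, with the guess `G` -/
def okT (cA cU : ℕ) (G : ℕ → ℕ → Bool) (s : ℕ) (L : List (List Bool)) : Bool :=
  (List.range (L.length + 1)).all fun e =>
    cvg s cU e (rs cA s L.length :: L) &&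
      (!(acc s cU e (rs cA s L.length :: L)) || G e s)

/-- the construction with the guess `G` -/
def TT (cA cU : ℕ) (G : ℕ → ℕ → Bool) : ℕ → List (List Bool)
  | 0 => []
  | s + 1 => if okT cA cU G s (TT cA cU G s) = true then
      rs cA s (TT cA cU G s).length :: TT cA cU G s else TT cA cU G s

section main

variable {cA cU c : ℕ} {A : ℕ → Bool} {U : ℕ → List (List Bool) → Bool} {G : ℕ → ℕ → Bool}

theorem gs_sound (hG : ∀ e s, (Denumerable.ofNat Code c).eval (Nat.pair e s) =
    Part.some (Encodable.encode (G e s))) {t e s v : ℕ} (h : gs t c e s = some v) :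
    v = Encodable.encode (G e s) := by
  have h1 := Nat.Partrec.Code.evaln_sound h
  rw [hG, Part.mem_some_iff] at h1
  exact h1

theorem gs_complete (hG : ∀ e s, (Denumerable.ofNat Code c).eval (Nat.pair e s) =
    Part.some (Encodable.encode (G e s))) (e s : ℕ) :
    ∃ t₀, ∀ t ≥ t₀, (gs t c e s).isSome = true := by
  have h : (Encodable.encode (G e s)) ∈ (Denumerable.ofNat Code c).eval (Nat.pair e s) := by
    rw [hG]; exact Part.mem_some _
  obtain ⟨k, hk⟩ := Nat.Partrec.Code.evaln_complete.1 h
  refine ⟨k, fun t' ht' => ?_⟩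
  rw [Option.isSome_iff_exists]
  exact ⟨_, Nat.Partrec.Code.evaln_mono ht' hk⟩

theorem ok_eq (hG : ∀ e s, (Denumerable.ofNat Code c).eval (Nat.pair e s) =
    Part.some (Encodable.encode (G e s))) {t s : ℕ} {L : List (List Bool)}
    (h : conv t c s L = true) : ok cA cU t c s L = okT cA cU G s L := by
  unfold ok okT
  unfold conv at h
  rw [List.all_eq_true] at h
  rw [Bool.eq_iff_iff, List.all_eq_true, List.all_eq_true]
  refine forall_congr' fun e => forall_congr' fun he => ?_
  have h1 : decide (gs t c e s = some 1) = G e s := by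
    obtain ⟨v, hv⟩ := Option.isSome_iff_exists.1 (h e he)
    rw [hv, gs_sound hG hv]
    cases G e s <;> simp
  rw [h1]

theorem run_sound (hG : ∀ e s, (Denumerable.ofNat Code c).eval (Nat.pair e s) =
    Part.some (Encodable.encode (G e s))) {t : ℕ} (s : ℕ) :
    ∀ L, run cA cU t c s = some L → L = TT cA cU G s := by
  induction s with
  | zero =>
    intro L h
    exact (Option.some_injective _ h).symm
  | succ s ih =>
    intro L h
    have h1 : (run cA cU t c s).bind (fun L => stp cA cU t c s L) = some L := h
    obtain ⟨L', h2, h3⟩ := Option.bind_eq_some_iff.1 h1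
    have h4 := ih L' h2
    subst h4
    unfold stp at h3
    by_cases hc : conv t c s (TT cA cU G s) = true
    · rw [if_pos hc, ok_eq hG hc] at h3
      show L = if okT cA cU G s (TT cA cU G s) = true then
        rs cA s (TT cA cU G s).length :: TT cA cU G s else TT cA cU G s
      split at h3 <;> rename_i h5
      · rw [if_pos h5]; exact (Option.some_injective _ h3).symm
      · rw [if_neg h5]; exact (Option.some_injective _ h3).symm
    · rw [if_neg hc] at h3
      simp at h3

theorem conv_large (hG : ∀ e s, (Denumerable.ofNat Code c).eval (Nat.pair e s) =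
    Part.some (Encodable.encode (G e s))) (s : ℕ) (L : List (List Bool)) :
    ∃ t₀, ∀ t ≥ t₀, conv t c s L = true := by
  choose f hf using fun e => gs_complete hG e s
  refine ⟨(Finset.range (L.length + 1)).sup f, fun t ht => ?_⟩
  unfold conv
  rw [List.all_eq_true]
  intro e he
  exact hf e t (le_trans (Finset.le_sup (Finset.mem_range.2 (List.mem_range.1 he))) ht)

theorem run_complete (hG : ∀ e s, (Denumerable.ofNat Code c).eval (Nat.pair e s) =
    Part.some (Encodable.encode (G e s))) (s : ℕ) :
    ∃ t₀, ∀ t ≥ t₀, run cA cU t c s = some (TT cA cU G s) := by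
  induction s with
  | zero => exact ⟨0, fun t _ => rfl⟩
  | succ s ih =>
    obtain ⟨t₁, h1⟩ := ih
    obtain ⟨t₂, h2⟩ := conv_large hG s (TT cA cU G s)
    refine ⟨max t₁ t₂, fun t ht => ?_⟩
    have h3 := h1 t (le_trans (le_max_left _ _) ht)
    have h4 := h2 t (le_trans (le_max_right _ _) ht)
    show (run cA cU t c s).bind (fun L => stp cA cU t c s L) = _
    rw [h3, Option.bind_some]
    unfold stp
    rw [if_pos h4, ok_eq hG h4]
    show _ = some (if okT cA cU G s (TT cA cU G s) = true then
        rs cA s (TT cA cU G s).length :: TT cA cU G s else TT cA cU G s)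
    split <;> rfl

theorem TT_succ (s : ℕ) : (TT cA cU G (s + 1) = TT cA cU G s) ∨
    (TT cA cU G (s + 1) = rs cA s (TT cA cU G s).length :: TT cA cU G s ∧
      okT cA cU G s (TT cA cU G s) = true) := by
  by_cases h : okT cA cU G s (TT cA cU G s) = true
  · right
    refine ⟨?_, h⟩
    show (if okT cA cU G s (TT cA cU G s) = true then
        rs cA s (TT cA cU G s).length :: TT cA cU G s else TT cA cU G s) = _
    rw [if_pos h]
  · left
    show (if okT cA cU G s (TT cA cU G s) = true then
        rs cA s (TT cA cU G s).length :: TT cA cU G s else TT cA cU G s) = _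
    rw [if_neg h]

theorem TT_len_le (s : ℕ) : (TT cA cU G s).length ≤ s := by
  induction s with
  | zero => exact le_rfl
  | succ s ih =>
    rcases TT_succ (cA := cA) (cU := cU) (G := G) s with h | ⟨h, -⟩
    · rw [h]; omega
    · rw [h, List.length_cons]; omega

theorem TT_suffix {s s' : ℕ} (h : s ≤ s') : TT cA cU G s <:+ TT cA cU G s' := by
  induction s', h using Nat.le_induction with
  | base => exact List.suffix_refl _
  | succ k _ ih =>
    rcases TT_succ (cA := cA) (cU := cU) (G := G) k with h | ⟨h, -⟩
    · rw [h]; exact ih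
    · rw [h]; exact ih.trans (List.suffix_cons _ _)

theorem TT_eq_of_length {s s' : ℕ} (h : (TT cA cU G s).length = (TT cA cU G s').length) :
    TT cA cU G s = TT cA cU G s' := by
  rcases le_total s s' with h1 | h1
  · exact (TT_suffix h1).eq_of_length h
  · exact ((TT_suffix h1).eq_of_length h.symm).symm

/-- some attempt for `e` is true -/
def Q (A : ℕ → Bool) (cA cU : ℕ) (G : ℕ → ℕ → Bool) (e : ℕ) : Prop :=
  ∃ s, e ≤ (TT cA cU G s).length ∧
    acc s cU e (rs cA s (TT cA cU G s).length :: TT cA cU G s) = true ∧
    ∀ n < (TT cA cU G s).length, A n = hA cA s n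

theorem seg_length (A : ℕ → Bool) (k : ℕ) : (seg A k).length = k := by simp [seg]

theorem seg_getD (A : ℕ → Bool) {k n : ℕ} (h : n < k) : (seg A k).getD n false = A n := by
  simp [seg, h]

theorem RU_iff (hG : ∀ e s, (Denumerable.ofNat Code c).eval (Nat.pair e s) =
    Part.some (Encodable.encode (G e s))) (e : ℕ) :
    (∃ k, RU cA cU (Nat.pair c e) (seg A k) = true) ↔ Q A cA cU G e := by
  constructor
  · rintro ⟨k, hk⟩
    unfold RU at hk
    rw [List.any_eq_true] at hk
    obtain ⟨s, hs, h⟩ := hk
    rw [seg_length, List.mem_range] at hs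
    rw [seg_length, Nat.unpair_pair] at h
    cases hr : run cA cU k c s with
    | none => rw [hr] at h; simp at h
    | some L =>
      rw [hr, Option.map_some, Option.getD_some] at h
      have hL := run_sound hG s L hr
      subst hL
      simp only [Bool.and_eq_true, decide_eq_true_iff, List.all_eq_true, List.mem_range] at h
      obtain ⟨h1, h2, h3⟩ := h
      refine ⟨s, h1, h2, fun n hn => ?_⟩
      have h4 := TT_len_le (cA := cA) (cU := cU) (G := G) s
      rw [← h3 n hn, seg_getD A (by omega)]
  · rintro ⟨s, h1, h2, h3⟩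
    obtain ⟨t₀, ht⟩ := run_complete (cA := cA) (cU := cU) hG s
    refine ⟨max t₀ s, ?_⟩
    unfold RU
    rw [List.any_eq_true]
    have hs : s ≤ max t₀ s := le_max_right _ _
    refine ⟨s, ?_, ?_⟩
    · rw [seg_length, List.mem_range]; omega
    · rw [seg_length, Nat.unpair_pair, ht _ (le_max_left _ _), Option.map_some, Option.getD_some]
      simp only [Bool.and_eq_true, decide_eq_true_iff, List.all_eq_true, List.mem_range]
      refine ⟨h1, h2, fun n hn => ?_⟩
      have h4 := TT_len_le (cA := cA) (cU := cU) (G := G) s
      rw [seg_getD A (by omega), h3 n hn]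

/-- the approximations stabilise -/
theorem rs_stable (hcA : ∀ n, A n = true ↔ ∃ s, hA cA s n = true) (k : ℕ) :
    ∃ s₁, ∀ s ≥ s₁, (∀ n < k, A n = hA cA s n) ∧ rs cA s k = rs cA s₁ k := by
  have h : ∀ n, ∃ s₁, ∀ s ≥ s₁, A n = hA cA s n := by
    intro n
    cases hn : A n with
    | true =>
      obtain ⟨s, hs⟩ := (hcA n).1 hn
      exact ⟨s, fun s' hs' => (hA_mono hs' hs).symm⟩
    | false =>
      refine ⟨0, fun s _ => ?_⟩
      cases hm : hA cA s n with
      | false => rfl
      | true =>
        have : A n = true := (hcA n).2 ⟨s, hm⟩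
        rw [hn] at this
        simp at this
  choose f hf using h
  have h2 : ∀ s ≥ (Finset.range k).sup f, ∀ n < k, A n = hA cA s n := fun s hs n hn =>
    hf n s (le_trans (Finset.le_sup (Finset.mem_range.2 hn)) hs)
  refine ⟨(Finset.range k).sup f, fun s hs => ⟨h2 s hs, ?_⟩⟩
  unfold rs
  apply List.map_congr_left
  intro n hn
  rw [← h2 s hs n (List.mem_range.1 hn), ← h2 _ le_rfl n (List.mem_range.1 hn)]

/-- the list of the approximations grows -/
theorem TT_unbounded (hcA : ∀ n, A n = true ↔ ∃ s, hA cA s n = true)
    (hcU : ∀ e L, (Denumerable.ofNat Code cU).eval (Encodable.encode (e, L)) =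
      Part.some (Encodable.encode (U e L)))
    (hlim : ∀ e, ∃ s₀, ∀ s ≥ s₀, (G e s = true ↔ Q A cA cU G e)) (k : ℕ) :
    ∃ s, (TT cA cU G s).length = k := by
  induction k with
  | zero => exact ⟨0, rfl⟩
  | succ k ih =>
    obtain ⟨s, hs⟩ := ih
    by_contra hcon
    push Not at hcon
    -- the list never changes
    have hconst : ∀ s' ≥ s, TT cA cU G s' = TT cA cU G s := by
      intro s' hs'
      induction s', hs' using Nat.le_induction with
      | base => rfl
      | succ t ht iht =>
        rcases TT_succ (cA := cA) (cU := cU) (G := G) t with h | ⟨h, -⟩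
        · rw [h, iht]
        · exfalso
          apply hcon (t + 1)
          rw [h, List.length_cons, iht, hs]
    obtain ⟨s₁, hs₁⟩ := rs_stable hcA k
    choose f hf using ev_cvg hcU
    choose s₀ hs₀ using hlim
    set L := rs cA s₁ k :: TT cA cU G s with hL
    set t := max s (max s₁ (max ((Finset.range (k + 1)).sup fun e => f e L)
      ((Finset.range (k + 1)).sup s₀))) with ht
    have hts : s ≤ t := le_max_left _ _
    have hts₁ : s₁ ≤ t := le_trans (le_max_left _ _) (le_max_right _ _)
    have htf : ∀ e ≤ k, f e L ≤ t := fun e he =>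
      le_trans (Finset.le_sup (f := fun e => f e L) (Finset.mem_range.2 (by omega)))
        (le_trans (le_max_left _ _) (le_trans (le_max_right _ _) (le_max_right _ _)))
    have htg : ∀ e ≤ k, s₀ e ≤ t := fun e he =>
      le_trans (Finset.le_sup (f := s₀) (Finset.mem_range.2 (by omega)))
        (le_trans (le_max_right _ _) (le_trans (le_max_right _ _) (le_max_right _ _)))
    have hTt : TT cA cU G t = TT cA cU G s := hconst t hts
    have hlt : (TT cA cU G t).length = k := by rw [hTt, hs]
    have hLt : rs cA t (TT cA cU G t).length :: TT cA cU G t = L := by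
      rw [hlt, (hs₁ t hts₁).2, hTt]
    have hok : okT cA cU G t (TT cA cU G t) = true := by
      unfold okT
      rw [List.all_eq_true]
      intro e he
      rw [hLt]
      rw [hlt, List.mem_range] at he
      have he' : e ≤ k := by omega
      rw [Bool.and_eq_true, hf e L t (htf e he')]
      refine ⟨rfl, ?_⟩
      cases ha : acc t cU e L with
      | false => rfl
      | true =>
        have h1 : Q A cA cU G e := by
          refine ⟨t, by rw [hlt]; exact he', by rw [hLt]; exact ha, fun n hn => ?_⟩
          rw [hlt] at hn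
          exact (hs₁ t hts₁).1 n hn
        rw [(hs₀ e t (htg e he')).2 h1]
        rfl
    rcases TT_succ (cA := cA) (cU := cU) (G := G) t with h | ⟨h, -⟩
    · have h1 : TT cA cU G (t + 1) = rs cA t (TT cA cU G t).length :: TT cA cU G t := by
        show (if okT cA cU G t (TT cA cU G t) = true then
          rs cA t (TT cA cU G t).length :: TT cA cU G t else TT cA cU G t) = _
        rw [if_pos hok]
      apply hcon (t + 1)
      rw [h1, List.length_cons, hlt]
    · apply hcon (t + 1)
      rw [h, List.length_cons, hlt]

end main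

end Pool.Agent.Y403.LW
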