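import Pool.Agent.H109R3.LA.Low

/-!
Robinson's trick for low c.e. sets: the construction of the approximations.
-/

set_option autoImplicit false

namespace Pool.Agent.Y403.LW

open Nat.Partrec (Code)
open Nat.Partrec.Code (evaln eval)
open Pool.Agent.H938R3.TC
open Pool.Agent.H109R3.LA (cvg acc ev_cvg acc_iff primrec_evn)

/-- the first `k` bits of `A` -/
def seg (A : ℕ → Bool) (k : ℕ) : List Bool := (List.range k).map A

/-- The set `A` is low: every `Σ₁(A)` set of natural numbers is limit computable. -/
def IsLow (A : ℕ → Bool) : Prop :=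
  ∀ R : ℕ → List Bool → Bool, Computable₂ R →
    ∃ g : ℕ → ℕ → Bool, Computable₂ g ∧
      ∀ n, ∃ s₀, ∀ s ≥ s₀, (g n s = true ↔ ∃ k, R n (seg A k) = true)

/-- the number `n` is enumerated by the program `cA` before stage `s` -/
def hA (cA s n : ℕ) : Bool := (evaln s (Denumerable.ofNat Code cA) n).isSome

theorem hA_mono {cA s s' n : ℕ} (h : s ≤ s') (hs : hA cA s n = true) : hA cA s' n = true := by
  unfold hA at *
  obtain ⟨v, hv⟩ := Option.isSome_iff_exists.1 hs
  exact Option.isSome_iff_exists.2 ⟨v, Nat.Partrec.Code.evaln_mono h hv⟩

/-- the approximation of length `k` at stage `s` -/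
def rs (cA s k : ℕ) : List Bool := (List.range k).map fun n => hA cA s n

/-- the value of the guess at `(e, s)` computed by the program `c` in `t` steps -/
def gs (t c e s : ℕ) : Option ℕ := evaln t (Denumerable.ofNat Code c) (Nat.pair e s)

/-- all the guesses needed at stage `s` are defined -/
def conv (t c s : ℕ) (L : List (List Bool)) : Bool :=
  (List.range (L.length + 1)).all fun e => (gs t c e s).isSome

/-- the approximation of stage `s` is accepted -/
def ok (cA cU t c s : ℕ) (L : List (List Bool)) : Bool :=
  (List.range (L.length + 1)).all fun e =>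
    cvg s cU e (rs cA s L.length :: L) &&
      (!(acc s cU e (rs cA s L.length :: L)) || decide (gs t c e s = some 1))

/-- one step of the construction, with the guesses bounded by `t` steps -/
def stp (cA cU t c s : ℕ) (L : List (List Bool)) : Option (List (List Bool)) :=
  if conv t c s L = true then
    if ok cA cU t c s L = true then some (rs cA s L.length :: L) else some L
  else none

/-- the construction, with the guesses bounded by `t` steps -/
def run (cA cU t c : ℕ) : ℕ → Option (List (List Bool))
  | 0 => some []
  | s + 1 => (run cA cU t c s).bind fun L => stp cA cU t c s L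

/-- the question: some attempt for `e` in the construction with the guesses `c` is true -/
def RU (cA cU p : ℕ) (τ : List Bool) : Bool :=
  (List.range (τ.length + 1)).any fun s =>
    ((run cA cU τ.length p.unpair.1 s).map fun L =>
      decide (p.unpair.2 ≤ L.length) && (acc s cU p.unpair.2 (rs cA s L.length :: L) &&
        (List.range L.length).all fun n => decide (τ.getD n false = hA cA s n))).getD false

/-! ### computability -/

section prim

variable {α : Type} [Primcodable α]

theorem primrec_hA {cA : ℕ} {s n : α → ℕ} (hs : Primrec s) (hn : Primrec n) :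
    Primrec fun a => hA cA (s a) (n a) := by
  unfold hA
  exact Primrec.option_isSome.comp (Nat.Partrec.Code.primrec_evaln.comp
    ((hs.pair (Primrec.const _)).pair hn))

theorem primrec_rs {cA : ℕ} {s k : α → ℕ} (hs : Primrec s) (hk : Primrec k) :
    Primrec fun a => rs cA (s a) (k a) := by
  unfold rs
  exact Primrec.list_map (Primrec.list_range.comp hk)
    (primrec_hA (hs.comp Primrec.fst) Primrec.snd).to₂

theorem primrec_gs {t c e s : α → ℕ} (ht : Primrec t) (hc : Primrec c) (he : Primrec e)
    (hs : Primrec s) : Primrec fun a => gs (t a) (c a) (e a) (s a) := by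
  unfold gs
  exact Nat.Partrec.Code.primrec_evaln.comp ((ht.pair ((Primrec.ofNat Code).comp hc)).pair
    (Primrec₂.natPair.comp he hs))

theorem primrec_acc {cU : ℕ} {t e : α → ℕ} {L : α → List (List Bool)}
    (ht : Primrec t) (he : Primrec e) (hL : Primrec L) :
    Primrec fun a => acc (t a) cU (e a) (L a) := by
  unfold acc
  exact (Primrec.eq.comp (primrec_evn ht (Primrec.const cU) he hL) (Primrec.const (some 1))).decide

theorem primrec_cvg {cU : ℕ} {t e : α → ℕ} {L : α → List (List Bool)}
    (ht : Primrec t) (he : Primrec e) (hL : Primrec L) :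
    Primrec fun a => cvg (t a) cU (e a) (L a) := by
  unfold cvg
  exact Primrec.option_isSome.comp (primrec_evn ht (Primrec.const cU) he hL)

/-- bounded quantifiers -/
theorem primrec_all {β : Type} [Primcodable β] {l : α → List β} {p : α → β → Bool}
    (hl : Primrec l) (hp : Primrec₂ p) : Primrec fun a => (l a).all (p a) := by
  have h1 : PrimrecRel fun (b : β) (a : α) => p a b = true :=
    Primrec.eq.comp (hp.comp Primrec.snd Primrec.fst) (Primrec.const true)
  have h2 : PrimrecRel fun (l : List β) (a : α) => ∀ b ∈ l, p a b = true := h1.forall_mem_list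
  have h3 : PrimrecPred fun a => ∀ b ∈ l a, p a b = true :=
    PrimrecRel.comp h2 hl Primrec.id
  refine h3.decide.of_eq fun a => ?_
  rw [Bool.eq_iff_iff, decide_eq_true_iff, List.all_eq_true]

theorem primrec_any {β : Type} [Primcodable β] {l : α → List β} {p : α → β → Bool}
    (hl : Primrec l) (hp : Primrec₂ p) : Primrec fun a => (l a).any (p a) := by
  have h1 : PrimrecRel fun (b : β) (a : α) => p a b = true :=
    Primrec.eq.comp (hp.comp Primrec.snd Primrec.fst) (Primrec.const true)
  have h2 : PrimrecRel fun (l : List β) (a : α) => ∃ b ∈ l, p a b = true := h1.exists_mem_list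
  have h3 : PrimrecPred fun a => ∃ b ∈ l a, p a b = true :=
    PrimrecRel.comp h2 hl Primrec.id
  refine h3.decide.of_eq fun a => ?_
  rw [Bool.eq_iff_iff, decide_eq_true_iff, List.any_eq_true]

theorem primrec_conv {t c s : α → ℕ} {L : α → List (List Bool)} (ht : Primrec t)
    (hc : Primrec c) (hs : Primrec s) (hL : Primrec L) :
    Primrec fun a => conv (t a) (c a) (s a) (L a) := by
  unfold conv
  exact primrec_all (Primrec.list_range.comp (Primrec.succ.comp (Primrec.list_length.comp hL)))
    (Primrec.option_isSome.comp (primrec_gs (ht.comp Primrec.fst) (hc.comp Primrec.fst)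
      Primrec.snd (hs.comp Primrec.fst))).to₂

theorem primrec_ok {cA cU : ℕ} {t c s : α → ℕ} {L : α → List (List Bool)} (ht : Primrec t)
    (hc : Primrec c) (hs : Primrec s) (hL : Primrec L) :
    Primrec fun a => ok cA cU (t a) (c a) (s a) (L a) := by
  unfold ok
  have hlen : Primrec fun a => (L a).length := Primrec.list_length.comp hL
  have hnew : Primrec fun p : α × ℕ => rs cA (s p.1) (L p.1).length :: L p.1 :=
    Primrec.list_cons.comp (primrec_rs (hs.comp Primrec.fst) (hlen.comp Primrec.fst))
      (hL.comp Primrec.fst)
  refine primrec_all (Primrec.list_range.comp (Primrec.succ.comp hlen)) ?_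
  refine Primrec.and.comp (primrec_cvg (hs.comp Primrec.fst) Primrec.snd hnew) ?_
  refine Primrec.or.comp (Primrec.not.comp
    (primrec_acc (hs.comp Primrec.fst) Primrec.snd hnew)) ?_
  exact (Primrec.eq.comp (primrec_gs (ht.comp Primrec.fst) (hc.comp Primrec.fst) Primrec.snd
    (hs.comp Primrec.fst)) (Primrec.const (some 1))).decide

theorem primrec_stp {cA cU : ℕ} {t c s : α → ℕ} {L : α → List (List Bool)} (ht : Primrec t)
    (hc : Primrec c) (hs : Primrec s) (hL : Primrec L) :
    Primrec fun a => stp cA cU (t a) (c a) (s a) (L a) := by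
  unfold stp
  have hlen : Primrec fun a => (L a).length := Primrec.list_length.comp hL
  refine Primrec.ite (Primrec.eq.comp (primrec_conv ht hc hs hL) (Primrec.const true)) ?_
    (Primrec.const none)
  refine Primrec.ite (Primrec.eq.comp (primrec_ok ht hc hs hL) (Primrec.const true)) ?_
    (Primrec.option_some.comp hL)
  exact Primrec.option_some.comp (Primrec.list_cons.comp (primrec_rs hs hlen) hL)

theorem primrec_run {cA cU : ℕ} {t c s : α → ℕ} (ht : Primrec t) (hc : Primrec c)
    (hs : Primrec s) : Primrec fun a => run cA cU (t a) (c a) (s a) := by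
  have h : Primrec fun a => (Nat.rec (some []) (fun s IH => IH.bind fun L =>
      stp cA cU (t a) (c a) s L) (s a) : Option (List (List Bool))) := by
    refine Primrec.nat_rec' (f := s) (g := fun _ => some [])
      (h := fun a (q : ℕ × Option (List (List Bool))) => q.2.bind fun L =>
        stp cA cU (t a) (c a) q.1 L) hs (Primrec.const _) ?_
    refine Primrec.option_bind (Primrec.snd.comp Primrec.snd) ?_
    exact (primrec_stp (ht.comp (Primrec.fst.comp Primrec.fst))
      (hc.comp (Primrec.fst.comp Primrec.fst))
      (Primrec.fst.comp (Primrec.snd.comp Primrec.fst)) Primrec.snd).to₂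
  refine h.of_eq fun a => ?_
  generalize s a = n
  induction n with
  | zero => rfl
  | succ n ih =>
    show Option.bind _ _ = Option.bind _ _
    rw [ih]

theorem primrec_RU {cA cU : ℕ} : Primrec₂ (RU cA cU) := by
  show Primrec fun q : ℕ × List Bool => RU cA cU q.1 q.2
  unfold RU
  refine primrec_any (Primrec.list_range.comp (Primrec.succ.comp
    (Primrec.list_length.comp Primrec.snd))) ?_
  have h1 : Primrec fun a : (ℕ × List Bool) × ℕ => a.1.1.unpair.1 :=
    Primrec.fst.comp (Primrec.unpair.comp (Primrec.fst.comp Primrec.fst))
  have h2 : Primrec fun a : (ℕ × List Bool) × ℕ => a.1.1.unpair.2 :=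
    Primrec.snd.comp (Primrec.unpair.comp (Primrec.fst.comp Primrec.fst))
  have h3 : Primrec fun a : (ℕ × List Bool) × ℕ => a.1.2.length :=
    Primrec.list_length.comp (Primrec.snd.comp Primrec.fst)
  refine Primrec.option_getD.comp (Primrec.option_map (primrec_run h3 h1 Primrec.snd) ?_)
    (Primrec.const false)
  have hlen : Primrec fun b : ((ℕ × List Bool) × ℕ) × List (List Bool) => b.2.length :=
    Primrec.list_length.comp Primrec.snd
  refine Primrec.and.comp ?_ (Primrec.and.comp ?_ ?_)
  · exact (Primrec.nat_le.comp (h2.comp Primrec.fst) hlen).decide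
  · exact primrec_acc (Primrec.snd.comp Primrec.fst) (h2.comp Primrec.fst)
      (Primrec.list_cons.comp (primrec_rs (Primrec.snd.comp Primrec.fst) hlen) Primrec.snd)
  · refine primrec_all (Primrec.list_range.comp hlen) ?_
    refine (Primrec.eq.comp ?_ ?_).decide
    · exact (Primrec.list_getD false).comp
        (Primrec.snd.comp (Primrec.fst.comp (Primrec.fst.comp Primrec.fst))) Primrec.snd
    · exact primrec_hA (Primrec.snd.comp (Primrec.fst.comp Primrec.fst)) Primrec.snd

end prim

end Pool.Agent.Y403.LW
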